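import Mathlib

set_option autoImplicit false

namespace Pool.Agent.Results.MP_07f7bf_an.RigidBody

/-- The supremum norm of the `k`-homogeneous polynomial `x ↦ A (x, …, x)` on the unit ball. -/
noncomputable def polyNorm {X : Type} [NormedAddCommGroup X] [NormedSpace ℝ X] {k : ℕ}
    (A : ContinuousMultilinearMap ℝ (fun _ : Fin k => X) X) : ℝ :=
  sSup {r : ℝ | ∃ x : X, ‖x‖ ≤ 1 ∧ r = ‖A (fun _ => x)‖}

/-- The numerical radius of the `k`-homogeneous polynomial `x ↦ A (x, …, x)`. -/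
noncomputable def polyRadius {X : Type} [NormedAddCommGroup X] [NormedSpace ℝ X] {k : ℕ}
    (A : ContinuousMultilinearMap ℝ (fun _ : Fin k => X) X) : ℝ :=
  sSup {r : ℝ | ∃ (x : X) (f : X →L[ℝ] ℝ), ‖x‖ = 1 ∧ ‖f‖ = 1 ∧ f x = 1 ∧
    r = |f (A (fun _ => x))|}

/-- The polynomial numerical index of order `k` of the real normed space `X`. -/
noncomputable def polyIndex (k : ℕ) (X : Type) [NormedAddCommGroup X] [NormedSpace ℝ X] : ℝ :=
  sInf {r : ℝ | ∃ A : ContinuousMultilinearMap ℝ (fun _ : Fin k => X) X,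
    polyNorm A = 1 ∧ r = polyRadius A}

/-- The numerical index of the real normed space `X`, defined with bounded linear operators. -/
noncomputable def numIndex (X : Type) [NormedAddCommGroup X] [NormedSpace ℝ X] : ℝ :=
  sInf {r : ℝ | ∃ T : X →L[ℝ] X, ‖T‖ = 1 ∧
    r = sSup {s : ℝ | ∃ (x : X) (f : X →L[ℝ] ℝ), ‖x‖ = 1 ∧ ‖f‖ = 1 ∧ f x = 1 ∧ s = |f (T x)|}}

/-- The underlying three-dimensional real vector space. -/
def V : Type := Fin 3 → ℝ

instance : AddCommGroup V := inferInstanceAs (AddCommGroup (Fin 3 → ℝ))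

instance : Module ℝ V := inferInstanceAs (Module ℝ (Fin 3 → ℝ))

instance : Module.Finite ℝ V := inferInstanceAs (Module.Finite ℝ (Fin 3 → ℝ))

instance : Nontrivial V := inferInstanceAs (Nontrivial (Fin 3 → ℝ))

@[simp] lemma add_coord (x y : V) (i : Fin 3) : (x + y) i = x i + y i := rfl

@[simp] lemma smul_coord (c : ℝ) (x : V) (i : Fin 3) : (c • x) i = c * x i := rfl

@[simp] lemma zero_coord (i : Fin 3) : (0 : V) i = 0 := rfl

@[simp] lemma neg_coord (x : V) (i : Fin 3) : (-x) i = -x i := rfl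

@[simp] lemma sub_coord (x y : V) (i : Fin 3) : (x - y) i = x i - y i := rfl

/-- The embedding of `V` into the maximum sum of two Euclidean spaces. -/
noncomputable def embedMap : V →ₗ[ℝ] (EuclideanSpace ℝ (Fin 3) × EuclideanSpace ℝ (Fin 3)) where
  toFun x := (WithLp.toLp 2 ![2 * x 0, x 1, x 2], WithLp.toLp 2 ![x 0, x 1, 2 * x 2])
  map_add' x y := by
    ext i <;> fin_cases i <;> simp <;> ring
  map_smul' c x := by
    ext i <;> fin_cases i <;> simp <;> ring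

lemma embedMap_inj : Function.Injective embedMap := by
  intro x y h
  have h0 : (embedMap x).2 0 = (embedMap y).2 0 := by rw [h]
  have h1 : (embedMap x).2 1 = (embedMap y).2 1 := by rw [h]
  have h2 : (embedMap x).1 2 = (embedMap y).1 2 := by rw [h]
  funext i
  fin_cases i
  · exact h0
  · exact h1
  · exact h2

noncomputable instance : NormedAddCommGroup V := NormedAddCommGroup.induced V _ embedMap embedMap_inj

noncomputable instance : NormedSpace ℝ V := NormedSpace.induced ℝ V _ embedMap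

/-- first quadratic form -/
def q1 (x : V) : ℝ := 4 * x 0 ^ 2 + x 1 ^ 2 + x 2 ^ 2

/-- second quadratic form -/
def q2 (x : V) : ℝ := x 0 ^ 2 + x 1 ^ 2 + 4 * x 2 ^ 2

lemma q1_nonneg (x : V) : 0 ≤ q1 x := by unfold q1; positivity

lemma q2_nonneg (x : V) : 0 ≤ q2 x := by unfold q2; positivity

lemma norm_def (x : V) : ‖x‖ = max (√(q1 x)) (√(q2 x)) := by
  change ‖embedMap x‖ = _
  rw [Prod.norm_def, EuclideanSpace.norm_eq, EuclideanSpace.norm_eq]
  congr 2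
  · simp [embedMap, Fin.sum_univ_three, q1]; ring
  · simp [embedMap, Fin.sum_univ_three, q2]; ring

lemma norm_sq (x : V) : ‖x‖ ^ 2 = max (q1 x) (q2 x) := by
  rw [norm_def]
  rcases le_total (q1 x) (q2 x) with h | h
  · rw [max_eq_right h, max_eq_right (Real.sqrt_le_sqrt h), Real.sq_sqrt (q2_nonneg x)]
  · rw [max_eq_left h, max_eq_left (Real.sqrt_le_sqrt h), Real.sq_sqrt (q1_nonneg x)]

/-- coordinate functionals -/
noncomputable def coord (i : Fin 3) : V →L[ℝ] ℝ :=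
  LinearMap.toContinuousLinearMap
    ({ toFun := fun x => x i, map_add' := fun _ _ => rfl, map_smul' := fun _ _ => rfl } :
      V →ₗ[ℝ] ℝ)

@[simp] lemma coord_apply (i : Fin 3) (x : V) : coord i x = x i := rfl

/-- standard basis vectors -/
def e (i : Fin 3) : V := fun j => if j = i then 1 else 0

/-- a product of two functionals times a vector, as a bilinear map -/
noncomputable def bil (f g : V →L[ℝ] ℝ) (u : V) :
    ContinuousMultilinearMap ℝ (fun _ : Fin 2 => V) V :=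
  ContinuousLinearMap.uncurryLeft
    (f.smulRight (ContinuousMultilinearMap.ofSubsingleton ℝ V V (0 : Fin 1) (g.smulRight u)))

lemma bil_apply (f g : V →L[ℝ] ℝ) (u x : V) : bil f g u (fun _ => x) = (f x * g x) • u := by
  simp only [bil, ContinuousLinearMap.uncurryLeft_apply, ContinuousLinearMap.smulRight_apply,
    smul_apply, ContinuousMultilinearMap.ofSubsingleton_apply_apply]
  rw [mul_smul]
  rfl

/-- The quadratic vector field `(yz, -5xz, xy)`, which is tangent to all level sets of `q1`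
and `q2`. -/
noncomputable def A0 : ContinuousMultilinearMap ℝ (fun _ : Fin 2 => V) V :=
  bil (coord 1) (coord 2) (e 0) + (-5 : ℝ) • bil (coord 0) (coord 2) (e 1) +
    bil (coord 0) (coord 1) (e 2)

lemma A0_apply (x : V) : A0 (fun _ => x) = (fun i => ![x 1 * x 2, -5 * (x 0 * x 2), x 0 * x 1] i : V) := by
  simp only [A0, add_apply, smul_apply, bil_apply, coord_apply]
  funext i
  fin_cases i <;> simp [e]

lemma A0_0 (x : V) : (A0 (fun _ => x)) 0 = x 1 * x 2 := by rw [A0_apply]; rfl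

lemma A0_1 (x : V) : (A0 (fun _ => x)) 1 = -5 * (x 0 * x 2) := by rw [A0_apply]; rfl

lemma A0_2 (x : V) : (A0 (fun _ => x)) 2 = x 0 * x 1 := by rw [A0_apply]; rfl

lemma abs_apply_sq_le (f : V →L[ℝ] ℝ) (hf : ‖f‖ = 1) (y : V) : (f y) ^ 2 ≤ max (q1 y) (q2 y) := by
  rw [← norm_sq, ← sq_abs (f y), ← Real.norm_eq_abs]
  have := f.le_opNorm y
  rw [hf, one_mul] at this
  gcongr

/-- The vector field is annihilated by every supporting functional. -/
lemma A0_tangent (x : V) (f : V →L[ℝ] ℝ) (hx : ‖x‖ = 1) (hf : ‖f‖ = 1) (hfx : f x = 1) :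
    f (A0 (fun _ => x)) = 0 := by
  set w : V := A0 (fun _ => x) with hw
  set K : ℝ := max (q1 w) (q2 w) with hK
  have hK0 : 0 ≤ K := le_max_of_le_left (q1_nonneg w)
  have hx2 : max (q1 x) (q2 x) = 1 := by rw [← norm_sq, hx]; norm_num
  have key : ∀ t : ℝ, 2 * t * f w ≤ t ^ 2 * K := by
    intro t
    have h1 := abs_apply_sq_le f hf (x + t • w)
    have e1 : q1 (x + t • w) = q1 x + t ^ 2 * q1 w := by
      simp only [q1, add_coord, smul_coord, hw, A0_0, A0_1, A0_2]; ring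
    have e2 : q2 (x + t • w) = q2 x + t ^ 2 * q2 w := by
      simp only [q2, add_coord, smul_coord, hw, A0_0, A0_1, A0_2]; ring
    have h2 : max (q1 (x + t • w)) (q2 (x + t • w)) ≤ 1 + t ^ 2 * K := by
      rw [e1, e2]
      have a1 : q1 x ≤ 1 := hx2 ▸ le_max_left _ _
      have a2 : q2 x ≤ 1 := hx2 ▸ le_max_right _ _
      have b1 : q1 w ≤ K := le_max_left _ _
      have b2 : q2 w ≤ K := le_max_right _ _
      apply max_le
      · have := mul_le_mul_of_nonneg_left b1 (sq_nonneg t); linarith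
      · have := mul_le_mul_of_nonneg_left b2 (sq_nonneg t); linarith
    have h3 : f (x + t • w) = 1 + t * f w := by
      rw [map_add, map_smul, hfx, smul_eq_mul]
    rw [h3] at h1
    nlinarith [sq_nonneg (t * f w)]
  have hk := key (f w / (K + 1))
  have hK1 : 0 < K + 1 := by linarith
  have h4 : 2 * (f w / (K + 1)) * f w = 2 * (f w) ^ 2 / (K + 1) := by ring
  have h5 : (f w / (K + 1)) ^ 2 * K = (f w) ^ 2 * K / (K + 1) ^ 2 := by rw [div_pow]; ring
  rw [h4, h5, div_le_div_iff₀ hK1 (by positivity)] at hk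
  have h6 : (f w) ^ 2 * ((K + 1) * (K + 2)) ≤ 0 := by nlinarith
  have h7 : 0 < (K + 1) * (K + 2) := by positivity
  have h8 : (f w) ^ 2 ≤ 0 := by
    by_contra hcon
    push Not at hcon
    have := mul_pos hcon h7
    linarith
  exact pow_eq_zero_iff two_ne_zero |>.1 (le_antisymm h8 (sq_nonneg _))

lemma polyNorm_bdd {k : ℕ} (A : ContinuousMultilinearMap ℝ (fun _ : Fin k => V) V) :
    BddAbove {r : ℝ | ∃ x : V, ‖x‖ ≤ 1 ∧ r = ‖A (fun _ => x)‖} := by
  refine ⟨‖A‖, ?_⟩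
  rintro _ ⟨x, hx, rfl⟩
  calc ‖A (fun _ => x)‖ ≤ ‖A‖ * ∏ _i : Fin k, ‖x‖ := A.le_opNorm _
    _ ≤ ‖A‖ * 1 := by
        gcongr
        exact Finset.prod_le_one (fun _ _ => norm_nonneg _) (fun _ _ => hx)
    _ = ‖A‖ := mul_one _

lemma polyNorm_smul {k : ℕ} (c : ℝ) (hc : 0 ≤ c)
    (A : ContinuousMultilinearMap ℝ (fun _ : Fin k => V) V) :
    polyNorm (c • A) = c * polyNorm A := by
  unfold polyNorm
  rw [← smul_eq_mul, ← Real.sSup_smul_of_nonneg hc]
  congr 1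
  ext r
  constructor
  · rintro ⟨x, hx, rfl⟩
    refine ⟨‖A (fun _ => x)‖, ⟨x, hx, rfl⟩, ?_⟩
    simp only [smul_apply, norm_smul, Real.norm_of_nonneg hc, smul_eq_mul]
  · rintro ⟨_, ⟨x, hx, rfl⟩, rfl⟩
    refine ⟨x, hx, ?_⟩
    simp only [smul_apply, norm_smul, Real.norm_of_nonneg hc, smul_eq_mul]

lemma A0_norm_pos : 0 < polyNorm A0 := by
  set x : V := fun i => ![(1 / 4 : ℝ), 1 / 4, 1 / 4] i with hx
  have x0 : x 0 = 1 / 4 := rfl
  have x1 : x 1 = 1 / 4 := rfl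
  have x2 : x 2 = 1 / 4 := rfl
  have hn : ‖x‖ ≤ 1 := by
    have h : ‖x‖ ^ 2 ≤ 1 := by
      rw [norm_sq]
      simp only [q1, q2, x0, x1, x2]
      norm_num
    by_contra hcon
    push Not at hcon
    nlinarith
  have hpos : 0 < ‖A0 (fun _ => x)‖ := by
    rw [norm_pos_iff]
    intro h0
    have h1 : (A0 (fun _ => x)) 0 = 0 := by rw [h0]; rfl
    rw [A0_0, x1, x2] at h1
    norm_num at h1
  exact lt_of_lt_of_le hpos (le_csSup (polyNorm_bdd A0) ⟨x, hn, rfl⟩)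

lemma polyRadius_nonneg {k : ℕ} (A : ContinuousMultilinearMap ℝ (fun _ : Fin k => V) V) :
    0 ≤ polyRadius A := by
  apply Real.sSup_nonneg
  rintro _ ⟨x, f, -, -, -, rfl⟩
  exact abs_nonneg _

/-- The second polynomial numerical index of `V` is zero. -/
lemma polyIndex_two : polyIndex 2 V = 0 := by
  apply le_antisymm
  · have hpos := A0_norm_pos
    have hmem : (0 : ℝ) ∈ {r : ℝ | ∃ A : ContinuousMultilinearMap ℝ (fun _ : Fin 2 => V) V,
        polyNorm A = 1 ∧ r = polyRadius A} := by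
      refine ⟨(polyNorm A0)⁻¹ • A0, ?_, ?_⟩
      · rw [polyNorm_smul _ (inv_nonneg.2 hpos.le), inv_mul_cancel₀ hpos.ne']
      · apply le_antisymm (polyRadius_nonneg _)
        apply Real.sSup_le _ le_rfl
        rintro _ ⟨x, f, hx, hf, hfx, rfl⟩
        rw [smul_apply, map_smul, A0_tangent x f hx hf hfx]
        simp
    refine csInf_le ⟨0, ?_⟩ hmem
    rintro _ ⟨A, -, rfl⟩
    exact polyRadius_nonneg A
  · apply Real.sInf_nonneg
    rintro _ ⟨A, -, rfl⟩
    exact polyRadius_nonneg A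

/-- bilinear forms of `q1` and `q2` -/
def b1 (x y : V) : ℝ := 4 * x 0 * y 0 + x 1 * y 1 + x 2 * y 2

def b2 (x y : V) : ℝ := x 0 * y 0 + x 1 * y 1 + 4 * x 2 * y 2

lemma b1_sq_le (x y : V) : (b1 x y) ^ 2 ≤ q1 x * q1 y := by
  unfold b1 q1
  nlinarith [sq_nonneg (2 * x 0 * y 1 - 2 * x 1 * y 0), sq_nonneg (2 * x 0 * y 2 - 2 * x 2 * y 0),
    sq_nonneg (x 1 * y 2 - x 2 * y 1)]

lemma b2_sq_le (x y : V) : (b2 x y) ^ 2 ≤ q2 x * q2 y := by
  unfold b2 q2
  nlinarith [sq_nonneg (x 0 * y 1 - x 1 * y 0), sq_nonneg (2 * x 0 * y 2 - 2 * x 2 * y 0),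
    sq_nonneg (2 * x 1 * y 2 - 2 * x 2 * y 1)]

/-- A general device: a form that is dominated by the norm and reproduces the norm at `x` gives
a supporting functional. -/
lemma radius_bound (T : V →L[ℝ] V) (v : ℝ)
    (hv : ∀ (x : V) (f : V →L[ℝ] ℝ), ‖x‖ = 1 → ‖f‖ = 1 → f x = 1 → |f (T x)| ≤ v)
    (x : V) (g : V →L[ℝ] ℝ) (hx : x ≠ 0) (hg : ∀ y, |g y| ≤ ‖x‖ * ‖y‖) (hgx : g x = ‖x‖ ^ 2) :
    |g (T x)| ≤ v * ‖x‖ ^ 2 := by
  have hn : 0 < ‖x‖ := norm_pos_iff.2 hx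
  have h1 : ‖‖x‖⁻¹ • x‖ = 1 := by
    rw [norm_smul, norm_inv, norm_norm, inv_mul_cancel₀ hn.ne']
  have h3 : (‖x‖⁻¹ • g) (‖x‖⁻¹ • x) = 1 := by
    rw [smul_apply, map_smul, hgx, smul_eq_mul, smul_eq_mul]
    field_simp
  have h2 : ‖‖x‖⁻¹ • g‖ = 1 := by
    apply le_antisymm
    · apply ContinuousLinearMap.opNorm_le_bound _ zero_le_one
      intro y
      rw [smul_apply, norm_smul, norm_inv, norm_norm, Real.norm_eq_abs, one_mul]
      calc ‖x‖⁻¹ * |g y| ≤ ‖x‖⁻¹ * (‖x‖ * ‖y‖) := by gcongr; exact hg y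
        _ = ‖y‖ := by field_simp
    · have := (‖x‖⁻¹ • g).le_opNorm (‖x‖⁻¹ • x)
      rw [h3, h1, mul_one] at this
      simpa using this
  have h4 := hv (‖x‖⁻¹ • x) (‖x‖⁻¹ • g) h1 h2 h3
  rw [smul_apply, map_smul, map_smul, smul_eq_mul, smul_eq_mul, abs_mul, abs_mul,
    abs_of_pos (inv_pos.2 hn)] at h4
  calc |g (T x)| = ‖x‖ ^ 2 * (‖x‖⁻¹ * (‖x‖⁻¹ * |g (T x)|)) := by field_simp
    _ ≤ ‖x‖ ^ 2 * v := by gcongr
    _ = v * ‖x‖ ^ 2 := mul_comm _ _

/-- the functional `b1 x` -/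
noncomputable def g1 (x : V) : V →L[ℝ] ℝ :=
  (4 * x 0) • coord 0 + (x 1) • coord 1 + (x 2) • coord 2

noncomputable def g2 (x : V) : V →L[ℝ] ℝ :=
  (x 0) • coord 0 + (x 1) • coord 1 + (4 * x 2) • coord 2

lemma g1_apply (x y : V) : g1 x y = b1 x y := by
  simp [g1, b1]

lemma g2_apply (x y : V) : g2 x y = b2 x y := by
  simp [g2, b2]

lemma bound1 (T : V →L[ℝ] V) (v : ℝ)
    (hv : ∀ (x : V) (f : V →L[ℝ] ℝ), ‖x‖ = 1 → ‖f‖ = 1 → f x = 1 → |f (T x)| ≤ v)
    (x : V) (hx : x ≠ 0) (hq : q2 x ≤ q1 x) : |b1 x (T x)| ≤ v * q1 x := by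
  have hn : ‖x‖ ^ 2 = q1 x := by rw [norm_sq, max_eq_left hq]
  have := radius_bound T v hv x (g1 x) hx ?_ ?_
  · rwa [g1_apply, hn] at this
  · intro y
    rw [g1_apply]
    apply abs_le_of_sq_le_sq _ (by positivity)
    rw [mul_pow, hn, norm_sq]
    exact (b1_sq_le x y).trans (mul_le_mul_of_nonneg_left (le_max_left _ _) (q1_nonneg x))
  · rw [g1_apply, hn]; simp only [b1, q1]; ring

lemma bound2 (T : V →L[ℝ] V) (v : ℝ)
    (hv : ∀ (x : V) (f : V →L[ℝ] ℝ), ‖x‖ = 1 → ‖f‖ = 1 → f x = 1 → |f (T x)| ≤ v)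
    (x : V) (hx : x ≠ 0) (hq : q1 x ≤ q2 x) : |b2 x (T x)| ≤ v * q2 x := by
  have hn : ‖x‖ ^ 2 = q2 x := by rw [norm_sq, max_eq_right hq]
  have := radius_bound T v hv x (g2 x) hx ?_ ?_
  · rwa [g2_apply, hn] at this
  · intro y
    rw [g2_apply]
    apply abs_le_of_sq_le_sq _ (by positivity)
    rw [mul_pow, hn, norm_sq]
    exact (b2_sq_le x y).trans (mul_le_mul_of_nonneg_left (le_max_right _ _) (q2_nonneg x))
  · rw [g2_apply, hn]; simp only [b2, q2]; ring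

lemma decomp (x : V) : x = x 0 • e 0 + x 1 • e 1 + x 2 • e 2 := by
  funext i
  fin_cases i <;> simp [e]

lemma T_coord (T : V →L[ℝ] V) (x : V) (i : Fin 3) :
    (T x) i = x 0 * (T (e 0)) i + x 1 * (T (e 1)) i + x 2 * (T (e 2)) i := by
  conv_lhs => rw [decomp x]
  simp only [map_add, map_smul, add_coord, smul_coord]

/-- test vectors -/
def tv (a b c : ℝ) : V := fun i => ![a, b, c] i

@[simp] lemma tv0 (a b c : ℝ) : tv a b c 0 = a := rfl
@[simp] lemma tv1 (a b c : ℝ) : tv a b c 1 = b := rfl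
@[simp] lemma tv2 (a b c : ℝ) : tv a b c 2 = c := rfl

lemma tv_ne_zero (a b c : ℝ) (h : a ≠ 0 ∨ b ≠ 0 ∨ c ≠ 0) : tv a b c ≠ 0 := by
  intro h0
  rcases h with h | h | h
  · exact h (by rw [← tv0 a b c, h0]; rfl)
  · exact h (by rw [← tv1 a b c, h0]; rfl)
  · exact h (by rw [← tv2 a b c, h0]; rfl)

/-- All entries of an operator are controlled by its numerical radius. -/
lemma entries (T : V →L[ℝ] V) (v : ℝ)
    (hv : ∀ (x : V) (f : V →L[ℝ] ℝ), ‖x‖ = 1 → ‖f‖ = 1 → f x = 1 → |f (T x)| ≤ v)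
    (i j : Fin 3) : |(T (e j)) i| ≤ 20 * v := by
  have B1 : ∀ a b c : ℝ, (a ≠ 0 ∨ b ≠ 0 ∨ c ≠ 0) → c ^ 2 ≤ a ^ 2 →
      |b1 (tv a b c) (T (tv a b c))| ≤ v * q1 (tv a b c) := by
    intro a b c h0 h
    apply bound1 T v hv _ (tv_ne_zero a b c h0)
    simp only [q1, q2, tv0, tv1, tv2]
    linarith
  have B2 : ∀ a b c : ℝ, (a ≠ 0 ∨ b ≠ 0 ∨ c ≠ 0) → a ^ 2 ≤ c ^ 2 →
      |b2 (tv a b c) (T (tv a b c))| ≤ v * q2 (tv a b c) := by
    intro a b c h0 h
    apply bound2 T v hv _ (tv_ne_zero a b c h0)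
    simp only [q1, q2, tv0, tv1, tv2]
    linarith
  simp only [b1, b2, q1, q2, T_coord T (tv _ _ _), tv0, tv1, tv2, abs_le] at B1 B2
  have h1 := B1 1 0 0 (by norm_num) (by norm_num)
  have h2 := B1 0 1 0 (by norm_num) (by norm_num)
  have h3 := B2 0 0 1 (by norm_num) (by norm_num)
  have h4 := B1 1 1 0 (by norm_num) (by norm_num)
  have h5 := B1 1 (-1) 0 (by norm_num) (by norm_num)
  have h6 := B1 1 0 1 (by norm_num) (by norm_num)
  have h7 := B1 1 0 (-1) (by norm_num) (by norm_num)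
  have h8 := B2 1 0 1 (by norm_num) (by norm_num)
  have h9 := B2 1 0 (-1) (by norm_num) (by norm_num)
  have h10 := B2 0 1 1 (by norm_num) (by norm_num)
  have h11 := B2 0 1 (-1) (by norm_num) (by norm_num)
  have h12 := B1 1 1 1 (by norm_num) (by norm_num)
  have h13 := B1 1 1 (-1) (by norm_num) (by norm_num)
  have h14 := B1 1 (-1) 1 (by norm_num) (by norm_num)
  have h15 := B1 1 (-1) (-1) (by norm_num) (by norm_num)
  have h16 := B2 1 1 1 (by norm_num) (by norm_num)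
  have h17 := B2 1 1 (-1) (by norm_num) (by norm_num)
  have h18 := B2 1 (-1) 1 (by norm_num) (by norm_num)
  have h19 := B2 1 (-1) (-1) (by norm_num) (by norm_num)
  rw [abs_le]
  fin_cases i <;> fin_cases j <;> constructor <;> simp only [Fin.zero_eta, Fin.mk_one,
    Fin.reduceFinMk] <;> linarith

lemma norm_le_sum (y : V) : ‖y‖ ≤ 2 * (|y 0| + |y 1| + |y 2|) := by
  apply le_of_sq_le_sq _ (by positivity)
  rw [norm_sq]
  have h0 := abs_nonneg (y 0)
  have h1 := abs_nonneg (y 1)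
  have h2 := abs_nonneg (y 2)
  have e0 := sq_abs (y 0)
  have e1 := sq_abs (y 1)
  have e2 := sq_abs (y 2)
  apply max_le
  · unfold q1
    nlinarith [mul_nonneg h0 h1, mul_nonneg h0 h2, mul_nonneg h1 h2]
  · unfold q2
    nlinarith [mul_nonneg h0 h1, mul_nonneg h0 h2, mul_nonneg h1 h2]

lemma coord_le_norm (x : V) (i : Fin 3) : |x i| ≤ ‖x‖ := by
  apply abs_le_of_sq_le_sq _ (norm_nonneg _)
  rw [norm_sq]
  apply le_max_of_le_left
  unfold q1
  fin_cases i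
  · change x 0 ^ 2 ≤ _; nlinarith [sq_nonneg (x 0), sq_nonneg (x 1), sq_nonneg (x 2)]
  · change x 1 ^ 2 ≤ _; nlinarith [sq_nonneg (x 0), sq_nonneg (x 1), sq_nonneg (x 2)]
  · change x 2 ^ 2 ≤ _; nlinarith [sq_nonneg (x 0), sq_nonneg (x 1), sq_nonneg (x 2)]

lemma norm_le_radius (T : V →L[ℝ] V) (v : ℝ)
    (hv : ∀ (x : V) (f : V →L[ℝ] ℝ), ‖x‖ = 1 → ‖f‖ = 1 → f x = 1 → |f (T x)| ≤ v) :
    ‖T‖ ≤ 360 * v := by
  have hent := entries T v hv
  have hv0 : 0 ≤ v := by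
    have := (abs_nonneg _).trans (hent 0 0)
    linarith
  apply T.opNorm_le_bound (by positivity)
  intro x
  have hc : ∀ i, |(T x) i| ≤ 60 * v * ‖x‖ := by
    intro i
    rw [T_coord]
    have hx := fun j => coord_le_norm x j
    have hp : ∀ j, |x j * (T (e j)) i| ≤ 20 * v * ‖x‖ := by
      intro j
      rw [abs_mul]
      calc |x j| * |(T (e j)) i| ≤ ‖x‖ * (20 * v) :=
            mul_le_mul (hx j) (hent i j) (abs_nonneg _) (norm_nonneg _)
        _ = 20 * v * ‖x‖ := by ring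
    calc _ ≤ |x 0 * (T (e 0)) i + x 1 * (T (e 1)) i| + |x 2 * (T (e 2)) i| := abs_add_le _ _
      _ ≤ |x 0 * (T (e 0)) i| + |x 1 * (T (e 1)) i| + |x 2 * (T (e 2)) i| := by
          gcongr; exact abs_add_le _ _
      _ ≤ _ := by linarith [hp 0, hp 1, hp 2]
  calc ‖T x‖ ≤ 2 * (|(T x) 0| + |(T x) 1| + |(T x) 2|) := norm_le_sum _
    _ ≤ 2 * (60 * v * ‖x‖ + 60 * v * ‖x‖ + 60 * v * ‖x‖) := by
        gcongr <;> apply hc
    _ = 360 * v * ‖x‖ := by ring

/-- The numerical index of `V` is positive. -/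
lemma numIndex_pos : 0 < numIndex V := by
  have hmem : ∀ r ∈ {r : ℝ | ∃ T : V →L[ℝ] V, ‖T‖ = 1 ∧
    r = sSup {s : ℝ | ∃ (x : V) (f : V →L[ℝ] ℝ), ‖x‖ = 1 ∧ ‖f‖ = 1 ∧ f x = 1 ∧
      s = |f (T x)|}}, 1 / 360 ≤ r := by
    rintro _ ⟨T, hT, rfl⟩
    set S := {s : ℝ | ∃ (x : V) (f : V →L[ℝ] ℝ), ‖x‖ = 1 ∧ ‖f‖ = 1 ∧ f x = 1 ∧ s = |f (T x)|}
      with hS
    have hb : BddAbove S := by
      refine ⟨‖T‖, ?_⟩
      rintro _ ⟨x, f, hx, hf, hfx, rfl⟩
      have h1 := f.le_opNorm (T x)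
      have h2 := T.le_opNorm x
      rw [hf, one_mul] at h1
      rw [hx, mul_one] at h2
      exact h1.trans h2
    have := norm_le_radius T (sSup S) (fun x f hx hf hfx => le_csSup hb ⟨x, f, hx, hf, hfx, rfl⟩)
    rw [hT] at this
    linarith
  have hne : {r : ℝ | ∃ T : V →L[ℝ] V, ‖T‖ = 1 ∧
    r = sSup {s : ℝ | ∃ (x : V) (f : V →L[ℝ] ℝ), ‖x‖ = 1 ∧ ‖f‖ = 1 ∧ f x = 1 ∧
      s = |f (T x)|}}.Nonempty :=
    ⟨_, ContinuousLinearMap.id ℝ V, ContinuousLinearMap.norm_id, rfl⟩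
  have := le_csInf hne hmem
  unfold numIndex
  linarith

/-- There is a three-dimensional real Banach space whose second polynomial numerical index is
zero while its numerical index is positive. -/
theorem result :
    ∃ (X : Type) (_ : NormedAddCommGroup X) (_ : NormedSpace ℝ X),
      Module.finrank ℝ X = 3 ∧ CompleteSpace X ∧ polyIndex 2 X = 0 ∧ 0 < numIndex X := by
  refine ⟨V, inferInstance, inferInstance, ?_, ?_, polyIndex_two, numIndex_pos⟩
  · change Module.finrank ℝ (Fin 3 → ℝ) = 3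
    simp
  · exact FiniteDimensional.complete ℝ V

end Pool.Agent.Results.MP_07f7bf_an.RigidBody
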